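import Pool.Agent.H47.CP.Defs

set_option autoImplicit false

namespace Pool.H44.CP

open Pool.H47.CP

theorem intLin : IntLinStmt := by
  classical
  intro T N A hcard hind
  let f : (T → ℤ) →ₗ[ℤ] (A → ℤ) :=
    { toFun := fun m l => ∑ k : T, m k * N k l
      map_add' := by
        intro x y; funext l
        simp only [Pi.add_apply, add_mul, Finset.sum_add_distrib]
      map_smul' := by
        intro c x; funext l
        simp only [Pi.smul_apply, smul_eq_mul, RingHom.id_apply, Finset.mul_sum, mul_assoc] }
  have hninj : ¬ Function.Injective f := by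
    intro hinj
    have := card_le_of_injective ℤ f hinj
    simp only [Fintype.card_coe] at this
    omega
  have hex : ∃ m : T → ℤ, m ≠ 0 ∧ f m = 0 := by
    by_contra hno
    push Not at hno
    apply hninj
    rw [injective_iff_map_eq_zero]
    intro a ha
    by_contra hne
    exact hno a hne ha
  obtain ⟨m, hm0, hm⟩ := hex
  let m' : ZMod 5 → ℤ := fun k => if h : k ∈ T then m ⟨k, h⟩ else 0
  have hm' : ∀ l, ∑ k ∈ T, m' k * N k l = ∑ k : T, m k * N k l := by
    intro l
    rw [← Finset.sum_coe_sort T]
    refine Finset.sum_congr rfl fun k _ => ?_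
    have : m' k = m k := by
      show (if h : (k : ZMod 5) ∈ T then m ⟨k, h⟩ else 0) = m k
      rw [dif_pos k.2]
    rw [this]
  refine ⟨m', fun k hk => dif_neg hk, fun l hl => ?_, fun h0 => hm0 ?_⟩
  · rw [hm']
    exact congrFun hm ⟨l, hl⟩
  · have hz : m' = 0 := hind m' (fun k hk => dif_neg hk) (fun l => congrFun h0 l)
    funext k
    have := congrFun hz k
    have h2 : m' k = m k := by
      show (if h : (k : ZMod 5) ∈ T then m ⟨k, h⟩ else 0) = m k
      rw [dif_pos k.2]
    rw [← h2, this]; rfl

end Pool.H44.CP
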