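import Pool.Agent.H47.CP.Defs

set_option autoImplicit false

namespace Pool.H44.CP

open Pool.H47.CP

theorem rep_ne (p : CP4) : p.rep ≠ 0 := Projectivization.rep_nonzero _

theorem mk_rep (v : ZMod 5 → ℂ) (hv : v ≠ 0) :
    ∃ a : ℂ, a ≠ 0 ∧ (CP4.mk v hv).rep = fun k => a * v k := by
  obtain ⟨a, ha⟩ := Projectivization.exists_smul_eq_mk_rep ℂ v hv
  refine ⟨(a : ℂ), a.ne_zero, ?_⟩
  show Projectivization.rep (Projectivization.mk ℂ v hv) = _
  rw [← ha]
  funext k
  rfl

theorem rat_mk (i j : ZMod 5) (v : ZMod 5 → ℂ) (hv : v ≠ 0) : rat i j (CP4.mk v hv) = v i / v j := by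
  obtain ⟨a, ha, h⟩ := mk_rep v hv
  rw [rat, h]
  show a * v i / (a * v j) = _
  rw [mul_div_mul_left _ _ ha]

theorem mem_B_mk (I : Finset (ZMod 5)) (v : ZMod 5 → ℂ) (hv : v ≠ 0) :
    CP4.mk v hv ∈ B I ↔ ∀ i ∈ I, ∀ j, ‖v j‖ ≤ ‖v i‖ := by
  obtain ⟨a, ha, h⟩ := mk_rep v hv
  have hpos : 0 < ‖a‖ := norm_pos_iff.mpr ha
  constructor
  · intro H i hi j
    have := H i hi j
    rw [h] at this
    simp only [norm_mul] at this
    exact le_of_mul_le_mul_left this hpos
  · intro H i hi j
    rw [h]
    simp only [norm_mul]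
    exact mul_le_mul_of_nonneg_left (H i hi j) hpos.le

/-- squared norm -/
noncomputable def nsq (v : ZMod 5 → ℂ) : ℝ := ∑ k, ‖v k‖ ^ 2

theorem nsq_pos (v : ZMod 5 → ℂ) (hv : v ≠ 0) : 0 < nsq v := by
  obtain ⟨k, hk⟩ : ∃ k, v k ≠ 0 := by
    by_contra h
    push Not at h
    exact hv (funext h)
  exact Finset.sum_pos' (fun _ _ => by positivity)
    ⟨k, Finset.mem_univ _, by have := norm_pos_iff.mpr hk; positivity⟩

/-- the function `z_i conj z_j / |z|^2` -/
noncomputable def P (i j : ZMod 5) (p : CP4) : ℂ :=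
  p.rep i * (starRingEnd ℂ) (p.rep j) / (nsq p.rep : ℂ)

theorem P_mk (i j : ZMod 5) (v : ZMod 5 → ℂ) (hv : v ≠ 0) :
    P i j (CP4.mk v hv) = v i * (starRingEnd ℂ) (v j) / (nsq v : ℂ) := by
  obtain ⟨a, ha, h⟩ := mk_rep v hv
  have hn : (nsq (fun k => a * v k) : ℂ) = (a * (starRingEnd ℂ) a) * (nsq v : ℂ) := by
    have h1 : nsq (fun k => a * v k) = ‖a‖ ^ 2 * nsq v := by
      simp only [nsq, norm_mul, mul_pow, Finset.mul_sum]
    rw [h1, Complex.mul_conj, Complex.normSq_eq_norm_sq]
    push_cast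
    ring
  rw [P, h, hn]
  show a * v i * (starRingEnd ℂ) (a * v j) / _ = _
  rw [map_mul]
  have ha' : a * (starRingEnd ℂ) a ≠ 0 := mul_ne_zero ha ((map_ne_zero _).mpr ha)
  have : a * v i * ((starRingEnd ℂ) a * (starRingEnd ℂ) (v j)) =
      (a * (starRingEnd ℂ) a) * (v i * (starRingEnd ℂ) (v j)) := by ring
  rw [this, mul_div_mul_left _ _ ha']

theorem continuous_mk {X : Type*} [TopologicalSpace X] (f : X → ZMod 5 → ℂ) (hf : Continuous f)
    (h0 : ∀ x, f x ≠ 0) : Continuous fun x => CP4.mk (f x) (h0 x) := by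
  have h1 : Continuous fun x => (⟨f x, h0 x⟩ : {v : ZMod 5 → ℂ // v ≠ 0}) := hf.subtype_mk h0
  exact continuous_quot_mk.comp h1

theorem continuous_of_mk (F : CP4 → ℂ)
    (h : Continuous fun v : {v : ZMod 5 → ℂ // v ≠ 0} => F (CP4.mk v.1 v.2)) : Continuous F := by
  have := (isQuotientMap_quot_mk (r := (projectivizationSetoid ℂ (ZMod 5 → ℂ)).r)).continuous_iff
    (g := F)
  exact this.mpr h

theorem continuous_P (i j : ZMod 5) : Continuous (P i j) := by
  apply continuous_of_mk
  have : (fun v : {v : ZMod 5 → ℂ // v ≠ 0} => P i j (CP4.mk v.1 v.2)) =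
      fun v => v.1 i * (starRingEnd ℂ) (v.1 j) / (nsq v.1 : ℂ) := by
    funext v
    exact P_mk i j v.1 v.2
  rw [this]
  have hi : ∀ i : ZMod 5, Continuous fun v : {v : ZMod 5 → ℂ // v ≠ 0} => v.1 i :=
    fun i => (continuous_apply i).comp continuous_subtype_val
  refine Continuous.div ((hi i).mul (Complex.continuous_conj.comp (hi j))) ?_ ?_
  · refine Complex.continuous_ofReal.comp ?_
    unfold nsq
    exact continuous_finsetSum _ fun k _ => ((hi k).norm).pow 2
  · intro v
    exact_mod_cast (nsq_pos v.1 v.2).ne'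

theorem rat_eq (i j : ZMod 5) (p : CP4) : rat i j p = P i j p / P j j p := by
  have hn : (nsq p.rep : ℂ) ≠ 0 := by exact_mod_cast (nsq_pos _ (rep_ne p)).ne'
  unfold rat P
  rw [div_div_div_cancel_right₀ hn]
  by_cases hj : p.rep j = 0
  · simp [hj]
  · rw [mul_div_mul_right _ _ ((map_ne_zero _).mpr hj)]

theorem rep_ne_of_mem {I : Finset (ZMod 5)} {j : ZMod 5} (hj : j ∈ I) {p : CP4} (hp : p ∈ B I) :
    p.rep j ≠ 0 := by
  intro h0
  apply rep_ne p
  funext k
  have := hp j hj k
  rw [h0, norm_zero] at this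
  exact norm_le_zero_iff.mp this

theorem t3 : T3Stmt := by
  intro I i j hi hj
  constructor
  · have : rat i j = fun p => P i j p / P j j p := funext (rat_eq i j)
    rw [this]
    refine ContinuousOn.div (continuous_P i j).continuousOn (continuous_P j j).continuousOn ?_
    intro p hp
    have hr := rep_ne_of_mem hj hp
    have hn : (nsq p.rep : ℂ) ≠ 0 := by exact_mod_cast (nsq_pos _ (rep_ne p)).ne'
    exact div_ne_zero (mul_ne_zero hr ((map_ne_zero _).mpr hr)) hn
  · intro p hp
    have hr := rep_ne_of_mem hj hp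
    rw [rat, norm_div, div_eq_one_iff_eq (norm_ne_zero_iff.mpr hr)]
    exact le_antisymm (hp j hj i) (hp i hi j)

/-- a continuous function which is a `2π` multiple of an integer everywhere is constant -/
theorem const_of_exp (g : ℝ → ℝ) (hg : Continuous g) (h1 : ∀ s, Complex.exp (g s * Complex.I) = 1)
    (a b : ℝ) : g a = g b := by
  have h2 : ∀ s, ∃ n : ℤ, g s / (2 * Real.pi) = n := by
    intro s
    obtain ⟨n, hn⟩ := Complex.exp_eq_one_iff.mp (h1 s)
    refine ⟨n, ?_⟩
    have h3 : (g s : ℂ) = n * (2 * Real.pi) := by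
      have : (g s : ℂ) * Complex.I = (n * (2 * Real.pi)) * Complex.I := by rw [hn]; ring
      exact mul_right_cancel₀ Complex.I_ne_zero this
    have h4 : g s = n * (2 * Real.pi) := by exact_mod_cast h3
    rw [h4]
    field_simp
  choose n hn using h2
  have hc : Continuous fun s => ((n s : ℤ) : ℝ) := by
    have : (fun s => ((n s : ℤ) : ℝ)) = fun s => g s / (2 * Real.pi) := funext fun s => (hn s).symm
    rw [this]
    exact hg.div_const _
  have hc' : Continuous n := Int.isClosedEmbedding_coe_real.isInducing.continuous_iff.mpr hc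
  have h5 : n a = n b := PreconnectedSpace.constant inferInstance hc'
  have h6 : g a / (2 * Real.pi) = g b / (2 * Real.pi) := by rw [hn, hn, h5]
  have hpi : (2 * Real.pi) ≠ 0 := by positivity
  field_simp at h6
  exact h6

theorem t4 : T4Stmt := by
  classical
  intro j0 m hm0 Φ hΦ h
  funext k
  by_cases hk : k = j0
  · rw [hk, hm0]; rfl
  -- the circle in the k-th coordinate
  let v : ℝ → ZMod 5 → ℂ := fun s l => if l = k then Complex.exp (s * Complex.I) else 1
  have hvj : ∀ s, v s j0 = 1 := fun s => if_neg (Ne.symm hk)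
  have hv0 : ∀ s, v s ≠ 0 := by
    intro s h0
    have := congrFun h0 j0
    rw [hvj] at this
    exact one_ne_zero this
  have hvc : Continuous v := by
    refine continuous_pi fun l => ?_
    by_cases hl : l = k
    · simp only [v, hl, if_true]
      exact Complex.continuous_exp.comp (Complex.continuous_ofReal.mul continuous_const)
    · simp only [v, if_neg hl]
      exact continuous_const
  have hnorm : ∀ s l, ‖v s l‖ = 1 := by
    intro s l
    by_cases hl : l = k
    · simp only [v, hl, if_true, Complex.norm_exp_ofReal_mul_I]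
    · simp only [v, if_neg hl, norm_one]
  have hB : ∀ s, CP4.mk (v s) (hv0 s) ∈ B Finset.univ := by
    intro s
    rw [mem_B_mk]
    intro i _ j
    rw [hnorm, hnorm]
  have hpc : Continuous fun s => CP4.mk (v s) (hv0 s) := continuous_mk v hvc hv0
  have hΦc : Continuous fun s => Φ (CP4.mk (v s) (hv0 s)) := hΦ.comp_continuous hpc hB
  have hval : ∀ s : ℝ, Complex.exp ((m k * s : ℝ) * Complex.I) =
      Complex.exp (Φ (CP4.mk (v s) (hv0 s)) * Complex.I) := by
    intro s
    rw [← h _ (hB s), Finset.prod_eq_single k]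
    · rw [rat_mk, hvj]
      simp only [v, if_true, div_one]
      rw [← Complex.exp_int_mul]
      congr 1
      push_cast
      ring
    · intro l _ hl
      rw [rat_mk, hvj]
      simp only [v, if_neg hl, div_one, one_zpow]
    · intro hk'
      exact absurd (Finset.mem_univ _) hk'
  have hg := const_of_exp (fun s => Φ (CP4.mk (v s) (hv0 s)) - m k * s)
    (hΦc.sub (continuous_const.mul continuous_id)) (by
      intro s
      have := hval s
      push_cast
      rw [sub_mul, Complex.exp_sub, ← this]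
      push_cast
      exact div_self (Complex.exp_ne_zero _)) 0 (2 * Real.pi)
  have hvv : v (2 * Real.pi) = v 0 := by
    funext l
    by_cases hl : l = k
    · simp only [v, hl, if_true]
      push_cast
      rw [Complex.exp_two_pi_mul_I, zero_mul, Complex.exp_zero]
    · simp only [v, if_neg hl]
  have hpp : CP4.mk (v (2 * Real.pi)) (hv0 _) = CP4.mk (v 0) (hv0 _) := by
    congr 1
  simp only [hpp] at hg
  have hpi := Real.pi_pos
  have : (m k : ℝ) * (2 * Real.pi) = 0 := by linarith
  have h7 : (m k : ℝ) = 0 := by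
    rcases mul_eq_zero.mp this with h8 | h8
    · exact h8
    · exfalso; linarith
  show m k = 0
  exact_mod_cast h7

end Pool.H44.CP
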